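import Mathlib

/-!
# Two counting lemmas for maps of finite sets
-/

namespace Q281.SM

open Finset

variable {X : Type*} [Fintype X] [DecidableEq X]

/-- size of the fibre of `F` through `y` -/
def wt (F : X → X) (y : X) : ℕ := (univ.filter (fun x => F x = F y)).card

lemma wt_pos (F : X → X) (y : X) : 0 < wt F y := by
  rw [wt, Finset.card_pos]
  exact ⟨y, by simp⟩

lemma wt_congr {F : X → X} {x y : X} (h : F x = F y) : wt F x = wt F y := by
  rw [wt, wt, h]

/-- injectivity outside `B` -/
def InjOff (B : Finset X) (φ : X → X) : Prop := ∀ x y, x ∉ B → y ∉ B → φ x = φ y → x = y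

lemma card_pre {B : Finset X} {φ : X → X} (h : InjOff B φ) (Y : Finset X) :
    (univ.filter (fun x => φ x ∈ Y)).card ≤ Y.card + B.card := by
  have h1 : (univ.filter (fun x => φ x ∈ Y)) ⊆
      (univ.filter (fun x => x ∉ B ∧ φ x ∈ Y)) ∪ B := by
    intro x hx
    simp only [mem_filter, mem_univ, true_and, mem_union] at hx ⊢
    tauto
  refine (card_le_card h1).trans ((card_union_le _ _).trans (Nat.add_le_add_right ?_ _))
  apply card_le_card_of_injOn φ
  · intro x hx
    simp only [coe_filter, mem_univ, true_and, Set.mem_ofPred_eq] at hx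
    exact hx.2
  · intro x hx y hy hxy
    simp only [coe_filter, mem_univ, true_and, Set.mem_ofPred_eq] at hx hy
    exact h x y hx.1 hy.1 hxy

/-- thin points -/
def thin (F : X → X) (B : Finset X) : Finset X :=
  univ.filter (fun y => wt F y < 2 * (univ.filter (fun x => F x = F y ∧ x ∈ B)).card)

lemma card_thin (F : X → X) (B : Finset X) : (thin F B).card ≤ 2 * B.card := by
  have h1 : (thin F B).card = ∑ v : X, ((thin F B).filter (fun y => F y = v)).card :=
    card_eq_sum_card_fiberwise (fun x _ => mem_univ _)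
  have h2 : B.card = ∑ v : X, (B.filter (fun y => F y = v)).card :=
    card_eq_sum_card_fiberwise (fun x _ => mem_univ _)
  rw [h1, h2, mul_sum]
  apply sum_le_sum
  intro v _
  rcases ((thin F B).filter (fun y => F y = v)).eq_empty_or_nonempty with h | ⟨y, hy⟩
  · rw [h]; simp
  · rw [mem_filter, thin, mem_filter] at hy
    obtain ⟨⟨_, hy⟩, rfl⟩ := hy
    have h3 : ((thin F B).filter (fun x => F x = F y)).card ≤ wt F y := by
      rw [wt]
      apply card_le_card
      intro x hx
      simp only [mem_filter, mem_univ, true_and] at hx ⊢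
      exact hx.2
    have h4 : (univ.filter (fun x => F x = F y ∧ x ∈ B)) = B.filter (fun x => F x = F y) := by
      ext x; simp [and_comm]
    rw [h4] at hy
    omega

/-- **The mass lemma.** -/
lemma mass {m : ℕ} (F φ T : X → X) (B : Finset X) (γ δ : Fin m → X → X)
    (h1 : ∀ y ∉ B, F (φ y) = T (F y)) (h2 : InjOff B φ) (h3 : ∀ i, InjOff B (γ i))
    (h3' : ∀ i, ∀ y ∉ B, γ i (δ i y) = y)
    (h4 : ∀ x ∉ B, φ x ∉ B → ∀ i, F (φ (γ i x)) = F (φ x))
    (h5 : ∀ x ∉ B, ∀ i j, i ≠ j → F (γ i x) ≠ F (γ j x)) :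
    m * (univ.filter (fun y => wt F (φ y) ≤ wt F y)).card ≤
      2 * Fintype.card X + (4 * m + 5 * m ^ 2) * B.card := by
  set Z := univ.filter (fun y => wt F (φ y) ≤ wt F y) with hZ
  set Bad : Finset X := (B ∪ univ.filter (fun x => φ x ∈ B)) ∪
    univ.biUnion (fun i => univ.filter (fun x => γ i x ∈ B) ∪
      univ.filter (fun x => γ i x ∈ thin F B)) with hBad
  have hBadcard : Bad.card ≤ (3 + 5 * m) * B.card := by
    have e1 : (B ∪ univ.filter (fun x => φ x ∈ B)).card ≤ B.card + (B.card + B.card) :=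
      (card_union_le _ _).trans (Nat.add_le_add_left (card_pre h2 B) _)
    have e2 : (univ.biUnion (fun i => univ.filter (fun x => γ i x ∈ B) ∪
      univ.filter (fun x => γ i x ∈ thin F B))).card ≤ m * (5 * B.card) := by
      refine (card_biUnion_le).trans ?_
      have : ∀ i ∈ (univ : Finset (Fin m)), (univ.filter (fun x => γ i x ∈ B) ∪
          univ.filter (fun x => γ i x ∈ thin F B)).card ≤ 5 * B.card := by
        intro i _
        have a1 := card_pre (h3 i) B
        have a2 := card_pre (h3 i) (thin F B)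
        have a3 := card_thin F B
        have a4 := card_union_le (univ.filter (fun x => γ i x ∈ B))
          (univ.filter (fun x => γ i x ∈ thin F B))
        omega
      refine (sum_le_sum this).trans ?_
      simp
    have e3 := card_union_le (B ∪ univ.filter (fun x => φ x ∈ B))
      (univ.biUnion (fun i => univ.filter (fun x => γ i x ∈ B) ∪
      univ.filter (fun x => γ i x ∈ thin F B)))
    rw [hBad]
    nlinarith
  -- the count at a good point
  have good : ∀ x, x ∉ Bad → (univ.filter (fun i => γ i x ∈ Z)).card ≤ 2 := by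
    intro x hx
    simp only [hBad, mem_union, mem_biUnion, mem_filter, mem_univ, true_and, not_or,
      not_exists] at hx
    obtain ⟨⟨hxB, hφB⟩, hγ⟩ := hx
    have hFφ : ∀ i, F (φ (γ i x)) = F (φ x) := h4 x hxB hφB
    set D : Fin m → Finset X := fun i => univ.filter (fun y => F y = F (γ i x) ∧ y ∉ B) with hD
    have hDi : ∀ i, wt F (γ i x) ≤ 2 * (D i).card := by
      intro i
      have a1 := (hγ i).2
      simp only [thin, mem_filter, mem_univ, true_and, not_lt] at a1
      have a2 : wt F (γ i x) = (univ.filter (fun y => F y = F (γ i x) ∧ y ∈ B)).card +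
          (D i).card := by
        rw [wt, hD, ← card_filter_add_card_filter_not (s := univ.filter
          (fun y => F y = F (γ i x))) (fun y => y ∈ B), filter_filter, filter_filter]
      omega
    have hsum : ∑ i, (D i).card ≤ wt F (φ x) := by
      have hdis : Set.PairwiseDisjoint (↑(univ : Finset (Fin m))) D := by
        intro i _ j _ hij
        rw [Function.onFun, Finset.disjoint_left]
        intro y hy hy'
        simp only [hD, mem_filter, mem_univ, true_and] at hy hy'
        exact h5 x hxB i j hij (hy.1.symm.trans hy'.1)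
      rw [← card_biUnion hdis, wt]
      apply card_le_card_of_injOn φ
      · intro y hy
        simp only [hD, coe_biUnion, mem_coe, mem_univ, Set.iUnion_true, coe_filter, true_and,
          Set.mem_iUnion, Set.mem_ofPred_eq] at hy
        obtain ⟨i, hy1, hy2⟩ := hy
        simp only [coe_filter, mem_univ, true_and, Set.mem_ofPred_eq]
        rw [h1 y hy2, hy1, ← h1 _ (hγ i).1, hFφ i]
      · intro y hy y' hy' hyy
        simp only [hD, coe_biUnion, mem_coe, mem_univ, Set.iUnion_true, coe_filter, true_and,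
          Set.mem_iUnion, Set.mem_ofPred_eq] at hy hy'
        obtain ⟨i, hy1, hy2⟩ := hy
        obtain ⟨i', hy1', hy2'⟩ := hy'
        exact h2 y y' hy2 hy2' hyy
    have hW : 0 < wt F (φ x) := wt_pos F _
    have hI : ∀ i ∈ univ.filter (fun i => γ i x ∈ Z), wt F (φ x) ≤ 2 * (D i).card := by
      intro i hi
      simp only [hZ, mem_filter, mem_univ, true_and] at hi
      rw [wt_congr (hFφ i)] at hi
      exact hi.trans (hDi i)
    have h6 : (univ.filter (fun i => γ i x ∈ Z)).card * wt F (φ x) ≤ 2 * wt F (φ x) := by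
      calc (univ.filter (fun i => γ i x ∈ Z)).card * wt F (φ x)
          = ∑ i ∈ univ.filter (fun i => γ i x ∈ Z), wt F (φ x) := by
            rw [sum_const, smul_eq_mul]
        _ ≤ ∑ i ∈ univ.filter (fun i => γ i x ∈ Z), 2 * (D i).card := sum_le_sum hI
        _ ≤ ∑ i, 2 * (D i).card := sum_le_sum_of_subset (filter_subset _ _)
        _ = 2 * ∑ i, (D i).card := by rw [mul_sum]
        _ ≤ 2 * wt F (φ x) := Nat.mul_le_mul_left _ hsum
    exact Nat.le_of_mul_le_mul_right h6 hW
  -- double counting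
  have hdc : ∑ x : X, (univ.filter (fun i => γ i x ∈ Z)).card =
      ∑ i, (univ.filter (fun x => γ i x ∈ Z)).card := by
    simp only [card_filter]
    rw [sum_comm]
  have hup : ∑ x : X, (univ.filter (fun i => γ i x ∈ Z)).card ≤
      2 * Fintype.card X + m * Bad.card := by
    have : ∀ x ∈ (univ : Finset X), (univ.filter (fun i => γ i x ∈ Z)).card ≤
        2 + if x ∈ Bad then m else 0 := by
      intro x _
      by_cases hx : x ∈ Bad
      · have : (univ.filter (fun i => γ i x ∈ Z)).card ≤ m :=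
          (card_le_univ _).trans (by simp)
        rw [if_pos hx]; omega
      · rw [if_neg hx]; have := good x hx; omega
    refine (sum_le_sum this).trans ?_
    rw [sum_add_distrib, sum_const, ← sum_filter, sum_const]
    simp only [smul_eq_mul, card_univ]
    have e : (univ.filter (fun x => x ∈ Bad)) = Bad := by ext; simp
    rw [e]
    nlinarith
  have hlow : ∀ i, Z.card ≤ (univ.filter (fun x => γ i x ∈ Z)).card + B.card := by
    intro i
    have a1 : Z ⊆ (Z \ B) ∪ B := by
      intro x hx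
      simp only [mem_union, mem_sdiff]
      tauto
    refine (card_le_card a1).trans ((card_union_le _ _).trans (Nat.add_le_add_right ?_ _))
    apply card_le_card_of_injOn (δ i)
    · intro y hy
      simp only [coe_sdiff, Set.mem_sdiff, mem_coe] at hy
      simp only [coe_filter, mem_univ, true_and, Set.mem_ofPred_eq]
      rw [h3' i y hy.2]
      exact hy.1
    · intro y hy y' hy' hyy
      simp only [coe_sdiff, Set.mem_sdiff, mem_coe] at hy hy'
      rw [← h3' i y hy.2, ← h3' i y' hy'.2, hyy]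
  have hlow' : m * Z.card ≤ ∑ i, (univ.filter (fun x => γ i x ∈ Z)).card + m * B.card := by
    have : ∑ _i : Fin m, Z.card ≤
        ∑ i : Fin m, ((univ.filter (fun x => γ i x ∈ Z)).card + B.card) :=
      sum_le_sum (fun i _ => hlow i)
    simp only [sum_add_distrib, sum_const, card_univ, Fintype.card_fin, smul_eq_mul] at this
    exact this
  have hBm : m * Bad.card ≤ m * ((3 + 5 * m) * B.card) := Nat.mul_le_mul_left _ hBadcard
  nlinarith

/-- **The order lemma.** -/
lemma order (w : X → ℕ) (B : Finset X) (z : ℕ) (H C₁ C₂ D E₁ E₂ φ₁ φ₂ φ₃ φ₄ φ₅ φ₆ : X → X)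
    (iH : InjOff B H) (iC₁ : InjOff B C₁) (iC₂ : InjOff B C₂) (iD : InjOff B D)
    (iE₁ : InjOff B E₁) (iE₂ : InjOff B E₂)
    (e₁ : ∀ b ∉ B, E₁ b = H (C₁ b)) (e₂ : ∀ b ∉ B, E₂ b = H (C₂ b))
    (e₃ : ∀ b ∉ B, C₂ b = C₁ (C₁ b))
    (r₁ : ∀ b ∉ B, φ₁ (H b) = C₁ b) (r₂ : ∀ b ∉ B, φ₂ (E₁ b) = b)
    (r₃ : ∀ b ∉ B, φ₃ (H b) = C₂ b) (r₄ : ∀ b ∉ B, φ₄ (E₂ b) = b)
    (r₅ : ∀ b ∉ B, φ₅ (D b) = H b) (r₆ : ∀ b ∉ B, φ₆ b = H (D b))
    (z₁ : (univ.filter (fun y => w (φ₁ y) ≤ w y)).card ≤ z)
    (z₂ : (univ.filter (fun y => w (φ₂ y) ≤ w y)).card ≤ z)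
    (z₃ : (univ.filter (fun y => w (φ₃ y) ≤ w y)).card ≤ z)
    (z₄ : (univ.filter (fun y => w (φ₄ y) ≤ w y)).card ≤ z)
    (z₅ : (univ.filter (fun y => w (φ₅ y) ≤ w y)).card ≤ z)
    (z₆ : (univ.filter (fun y => w (φ₆ y) ≤ w y)).card ≤ z) :
    Fintype.card X ≤ 38 * B.card + 22 * z := by
  set A := univ.filter (fun b => w b < w (H b)) with hA
  have key : ∀ (C E φ ψ : X → X), InjOff B E → (∀ b ∉ B, E b = H (C b)) →
      (∀ b ∉ B, φ (H b) = C b) → (∀ b ∉ B, ψ (E b) = b) →
      (univ.filter (fun y => w (φ y) ≤ w y)).card ≤ z →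
      (univ.filter (fun y => w (ψ y) ≤ w y)).card ≤ z →
      ∃ bad : Finset X, B ⊆ bad ∧ bad.card ≤ 3 * B.card + 2 * z ∧
        ∀ b ∈ A, b ∉ bad → C b ∉ A := by
    intro C E φ ψ iE eE rφ rψ zφ zψ
    refine ⟨(B ∪ univ.filter (fun b => H b ∈ univ.filter (fun y => w (φ y) ≤ w y))) ∪
      univ.filter (fun b => E b ∈ univ.filter (fun y => w (ψ y) ≤ w y)), ?_, ?_, ?_⟩
    · intro x hx
      simp only [mem_union]
      exact Or.inl (Or.inl hx)
    · have a1 := card_pre iH (univ.filter (fun y => w (φ y) ≤ w y))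
      have a2 := card_pre iE (univ.filter (fun y => w (ψ y) ≤ w y))
      have a3 := card_union_le (B ∪ univ.filter (fun b => H b ∈ univ.filter
        (fun y => w (φ y) ≤ w y))) (univ.filter (fun b => E b ∈ univ.filter
        (fun y => w (ψ y) ≤ w y)))
      have a4 := card_union_le B (univ.filter (fun b => H b ∈ univ.filter
        (fun y => w (φ y) ≤ w y)))
      omega
    · intro b hbA hb
      simp only [mem_union, mem_filter, mem_univ, true_and, not_or, not_le] at hb
      obtain ⟨⟨hbB, hb1⟩, hb2⟩ := hb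
      simp only [hA, mem_filter, mem_univ, true_and, not_lt] at hbA ⊢
      rw [rφ b hbB] at hb1
      rw [rψ b hbB, eE b hbB] at hb2
      omega
  obtain ⟨bad₁, hB₁, hc₁, hk₁⟩ := key C₁ E₁ φ₁ φ₂ iE₁ e₁ r₁ r₂ z₁ z₂
  obtain ⟨bad₂, hB₂, hc₂, hk₂⟩ := key C₂ E₂ φ₃ φ₄ iE₂ e₂ r₃ r₄ z₃ z₄
  set bad := (bad₁ ∪ bad₂) ∪ univ.filter (fun b => C₁ b ∈ B) with hbad
  have hbadcard : bad.card ≤ 8 * B.card + 4 * z := by
    have a1 := card_union_le (bad₁ ∪ bad₂) (univ.filter (fun b => C₁ b ∈ B))
    have a2 := card_union_le bad₁ bad₂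
    have a3 := card_pre iC₁ B
    rw [hbad]
    omega
  set A' := A \ bad with hA'
  have hAA' : A.card ≤ A'.card + bad.card := by
    have : A ⊆ A' ∪ bad := by
      intro x hx
      simp only [hA', mem_union, mem_sdiff]
      tauto
    exact (card_le_card this).trans (card_union_le _ _)
  have hA'mem : ∀ a ∈ A', a ∈ A ∧ a ∉ bad₁ ∧ a ∉ bad₂ ∧ C₁ a ∉ B := by
    intro a ha
    simp only [hA', hbad, mem_sdiff, mem_union, mem_filter, mem_univ, true_and, not_or] at ha
    exact ⟨ha.1, ha.2.1.1, ha.2.1.2, ha.2.2⟩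
  have hA'B : ∀ a ∈ A', a ∉ B := fun a ha h => (hA'mem a ha).2.1 (hB₁ h)
  have im₁ : (A'.image C₁).card = A'.card :=
    card_image_of_injOn (fun x hx y hy h => iC₁ x y (hA'B x hx) (hA'B y hy) h)
  have im₂ : (A'.image C₂).card = A'.card :=
    card_image_of_injOn (fun x hx y hy h => iC₂ x y (hA'B x hx) (hA'B y hy) h)
  have d₁ : Disjoint A (A'.image C₁) := by
    rw [Finset.disjoint_left]
    intro x hx hx'
    rw [mem_image] at hx'
    obtain ⟨a, ha, rfl⟩ := hx'
    exact hk₁ a (hA'mem a ha).1 (hA'mem a ha).2.1 hx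
  have d₂ : Disjoint (A ∪ A'.image C₁) (A'.image C₂) := by
    rw [Finset.disjoint_left]
    intro x hx hx'
    rw [mem_image] at hx'
    obtain ⟨a, ha, rfl⟩ := hx'
    rw [mem_union, mem_image] at hx
    rcases hx with hx | ⟨a', ha', hx⟩
    · exact hk₂ a (hA'mem a ha).1 (hA'mem a ha).2.2.1 hx
    · rw [e₃ a (hA'B a ha)] at hx
      have := iC₁ _ _ (hA'B a' ha') (hA'mem a ha).2.2.2 hx
      rw [this] at ha'
      exact hk₁ a (hA'mem a ha).1 (hA'mem a ha).2.1 (hA'mem _ ha').1
  have h3 : A.card + 2 * A'.card ≤ Fintype.card X := by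
    have := card_le_univ ((A ∪ A'.image C₁) ∪ A'.image C₂)
    rw [card_union_of_disjoint d₂, card_union_of_disjoint d₁, im₁, im₂] at this
    omega
  -- the complement
  set bad₃ := (B ∪ univ.filter (fun b => D b ∈ univ.filter (fun y => w (φ₅ y) ≤ w y))) ∪
    univ.filter (fun y => w (φ₆ y) ≤ w y) with hbad₃
  have hbad₃card : bad₃.card ≤ 2 * B.card + 2 * z := by
    have a1 := card_union_le (B ∪ univ.filter (fun b => D b ∈ univ.filter
      (fun y => w (φ₅ y) ≤ w y))) (univ.filter (fun y => w (φ₆ y) ≤ w y))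
    have a2 := card_union_le B (univ.filter (fun b => D b ∈ univ.filter
      (fun y => w (φ₅ y) ≤ w y)))
    have a3 := card_pre iD (univ.filter (fun y => w (φ₅ y) ≤ w y))
    rw [hbad₃]
    omega
  have hcomp : (univ.filter (fun b => ¬ w b < w (H b))).card ≤ A.card + bad₃.card := by
    have : (univ.filter (fun b => ¬ w b < w (H b))) ⊆
        ((univ.filter (fun b => ¬ w b < w (H b))) \ bad₃) ∪ bad₃ := by
      intro x hx
      simp only [mem_union, mem_sdiff]
      tauto
    refine (card_le_card this).trans ((card_union_le _ _).trans (Nat.add_le_add_right ?_ _))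
    apply card_le_card_of_injOn D
    · intro b hb
      simp only [coe_sdiff, coe_filter, mem_univ, true_and, Set.mem_sdiff, Set.mem_ofPred_eq,
        mem_coe, hbad₃, mem_union, mem_filter, not_or, not_le, not_lt] at hb
      obtain ⟨hb1, ⟨hbB, hb2⟩, hb3⟩ := hb
      rw [r₅ b hbB] at hb2
      rw [r₆ b hbB] at hb3
      simp only [hA, coe_filter, mem_univ, true_and, Set.mem_ofPred_eq]
      omega
    · intro x hx y hy hxy
      simp only [coe_sdiff, coe_filter, mem_univ, true_and, Set.mem_sdiff, Set.mem_ofPred_eq,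
        mem_coe, hbad₃, mem_union, mem_filter, not_or] at hx hy
      exact iD x y hx.2.1.1 hy.2.1.1 hxy
  have htot : A.card + (univ.filter (fun b => ¬ w b < w (H b))).card = Fintype.card X := by
    rw [hA, card_filter_add_card_filter_not, card_univ]
  omega

end Q281.SM
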