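import Mathlib

/-!
# Sofic monoids and the monoids attached to a subgroup
-/

namespace Q281.SM

/-- A `(K, ε)`-action of the monoid `M` on the finite set `X`: a map `M × X → X` such that `1` acts
as the identity, for `s, t ∈ K` at least `(1 - ε)|X|` points satisfy `s(tx) = (st)x`, and for
`s ≠ t` in `K` at least `(1 - ε)|X|` points satisfy `sx ≠ tx`. -/
structure IsAction {M : Type*} [Monoid M] (K : Finset M) (ε : ℝ) (X : Type*) (f : M → X → X) :
    Prop where
  one : ∀ x, f 1 x = x
  mul : ∀ s ∈ K, ∀ t ∈ K, (1 - ε) * Nat.card X ≤ Nat.card {x : X // f s (f t x) = f (s * t) x}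
  ne : ∀ s ∈ K, ∀ t ∈ K, s ≠ t → (1 - ε) * Nat.card X ≤ Nat.card {x : X // f s x ≠ f t x}

/-- Sofic monoids (Ceccherini-Silberstein and Coornaert). -/
def IsSofic (M : Type*) [Monoid M] : Prop :=
  ∀ (K : Finset M) (ε : ℝ), 0 < ε →
    ∃ (X : Type) (_ : Finite X) (_ : Nonempty X) (f : M → X → X), IsAction K ε X f

/-- The `J`-class of the identity: all `m` with `MmM = M`. -/
def JOne (M : Type*) [Monoid M] : Set M := {m | ∀ x : M, ∃ a b : M, a * m * b = x}

/-- The pointwise stabiliser in the group of units of the orbit `m U(M)` of `m` under right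
translation. -/
def orbStab {M : Type*} [Monoid M] (m : M) : Subgroup Mˣ where
  carrier := {g | ∀ u : Mˣ, m * u * g = m * u}
  one_mem' := by intro u; simp
  mul_mem' := by
    intro a b ha hb u
    have h1 := ha u
    have h2 := hb u
    rw [Units.val_mul, ← mul_assoc, h1, h2]
  inv_mem' := by
    intro a ha u
    have h1 := ha u
    nth_rewrite 1 [← h1]
    rw [mul_assoc, Units.mul_inv, mul_one]

instance {M : Type*} [Monoid M] (m : M) : (orbStab m).Normal where
  conj_mem := by
    intro n hn g u
    have h1 := hn (u * g)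
    rw [Units.val_mul, ← mul_assoc] at h1
    rw [Units.val_mul, Units.val_mul, ← mul_assoc, ← mul_assoc, h1, mul_assoc, Units.mul_inv,
      mul_one]

lemma IsSofic.of_mulEquiv {M N : Type*} [Monoid M] [Monoid N] (e : M ≃* N) (h : IsSofic M) :
    IsSofic N := by
  classical
  intro K ε hε
  obtain ⟨X, iF, iN, f, hf⟩ := h (K.image e.symm) ε hε
  refine ⟨X, iF, iN, fun n => f (e.symm n), ⟨fun x => ?_, fun s hs t ht => ?_,
    fun s hs t ht hst => ?_⟩⟩
  · rw [map_one]; exact hf.one x
  · have := hf.mul (e.symm s) (Finset.mem_image_of_mem _ hs) (e.symm t)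
      (Finset.mem_image_of_mem _ ht)
    simpa only [map_mul] using this
  · exact hf.ne (e.symm s) (Finset.mem_image_of_mem _ hs) (e.symm t)
      (Finset.mem_image_of_mem _ ht) (fun h => hst (e.symm.injective h))

lemma isSofic_of_subsingleton (M : Type*) [Monoid M] [Subsingleton M] : IsSofic M := by
  intro K ε hε
  refine ⟨Unit, inferInstance, inferInstance, fun _ x => x, ⟨fun _ => rfl, fun s _ t _ => ?_,
    fun s _ t _ hst => absurd (Subsingleton.elim s t) hst⟩⟩
  simp
  linarith

section Construction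

variable {G : Type} [Group G] (H : Subgroup G)

/-- The monoid of the elements `p` with `p H p⁻¹ ⊆ H`. -/
def PH : Submonoid G where
  carrier := {g | ∀ h ∈ H, g * h * g⁻¹ ∈ H}
  one_mem' := by intro h hh; simpa using hh
  mul_mem' := by
    intro a b ha hb h hh
    have := ha _ (hb h hh)
    simpa [mul_assoc] using this

/-- The right cosets `Hx`. -/
abbrev Cos : Type := Quotient (QuotientGroup.rightRel H)

/-- `Hx ↦ Hxg` -/
def cr (c : Cos H) (g : G) : Cos H :=
  Quotient.map' (s₁ := QuotientGroup.rightRel H) (s₂ := QuotientGroup.rightRel H)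
    (fun x => x * g) (by
      intro a b h
      rw [QuotientGroup.rightRel_apply] at h ⊢
      simpa [mul_assoc] using h) c

/-- `Hx ↦ Hpx` -/
def cl (p : PH H) (c : Cos H) : Cos H :=
  Quotient.map' (s₁ := QuotientGroup.rightRel H) (s₂ := QuotientGroup.rightRel H)
    (fun x => (p : G) * x) (by
      intro a b h
      rw [QuotientGroup.rightRel_apply] at h ⊢
      have := p.2 _ h
      simpa [mul_assoc] using this) c

/-- the coset of an element -/
def mkc (x : G) : Cos H := Quotient.mk'' x

/-- The set `G ∪ H\G ∪ P_H ∪ {0}`. -/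
inductive Car : Type
  | g (x : G) : Car
  | s (c : Cos H) : Car
  | t (p : PH H) : Car
  | z : Car

variable {H}

lemma cr_mkc (x g : G) : cr H (mkc H x) g = mkc H (x * g) := rfl

lemma cl_mkc (p : PH H) (x : G) : cl H p (mkc H x) = mkc H ((p : G) * x) := rfl

lemma mkc_surj (c : Cos H) : ∃ x, mkc H x = c := Quotient.exists_rep c

lemma mkc_eq {x y : G} : mkc H x = mkc H y ↔ y * x⁻¹ ∈ H := by
  rw [mkc, mkc, Quotient.eq'', QuotientGroup.rightRel_apply]

lemma cr_one (c : Cos H) : cr H c 1 = c := by
  obtain ⟨x, rfl⟩ := mkc_surj c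
  rw [cr_mkc, mul_one]

lemma cr_mul (c : Cos H) (a b : G) : cr H (cr H c a) b = cr H c (a * b) := by
  obtain ⟨x, rfl⟩ := mkc_surj c
  rw [cr_mkc, cr_mkc, cr_mkc, mul_assoc]

lemma cl_one (c : Cos H) : cl H 1 c = c := by
  obtain ⟨x, rfl⟩ := mkc_surj c
  rw [cl_mkc]; simp

lemma cl_mul (p q : PH H) (c : Cos H) : cl H p (cl H q c) = cl H (p * q) c := by
  obtain ⟨x, rfl⟩ := mkc_surj c
  rw [cl_mkc, cl_mkc, cl_mkc]; simp [mul_assoc]

lemma cl_cr (p : PH H) (c : Cos H) (a : G) : cl H p (cr H c a) = cr H (cl H p c) a := by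
  obtain ⟨x, rfl⟩ := mkc_surj c
  rw [cr_mkc, cl_mkc, cl_mkc, cr_mkc, mul_assoc]

/-- the multiplication of the first monoid -/
def nmul : Car H → Car H → Car H
  | .g a, .g b => .g (a * b)
  | .g _, .s c => .s c
  | .g _, .t p => .t p
  | .g _, .z => .z
  | .s c, .g a => .s (cr H c a)
  | .s _, .s _ => .z
  | .s _, .t _ => .z
  | .s _, .z => .z
  | .t p, .g _ => .t p
  | .t p, .s c => .s (cl H p c)
  | .t p, .t q => .t (p * q)
  | .t _, .z => .z
  | .z, _ => .z

/-- the multiplication of the second monoid: all products of two non-units are zero -/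
def zmul : Car H → Car H → Car H
  | .g a, .g b => .g (a * b)
  | .g _, .s c => .s c
  | .g _, .t p => .t p
  | .g _, .z => .z
  | .s c, .g a => .s (cr H c a)
  | .s _, .s _ => .z
  | .s _, .t _ => .z
  | .s _, .z => .z
  | .t p, .g _ => .t p
  | .t _, .s _ => .z
  | .t _, .t _ => .z
  | .t _, .z => .z
  | .z, _ => .z

variable (H)

/-- The monoid `G ∪ H\G ∪ P_H ∪ {0}` in which `x (Hy) = Hy`, `x p = p`, `(Hy) x = Hyx`,
`p x = p`, `p (Hy) = Hpy` (`x, y ∈ G`, `p ∈ P_H`), `P_H` multiplies as in `G` and the other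
products are `0`. -/
def NMon : Type := Car H

/-- The monoid `G ∪ H\G ∪ P_H ∪ {0}` in which `x (Hy) = Hy`, `x p = p`, `(Hy) x = Hyx`,
`p x = p` (`x, y ∈ G`, `p ∈ P_H`) and all products of two elements outside `G` are `0`. -/
def ZMon : Type := Car H

instance : Monoid (NMon H) where
  mul := nmul
  one := Car.g 1
  mul_assoc := by
    intro a b c
    change nmul (nmul a b) c = nmul a (nmul b c)
    cases a <;> cases b <;> cases c <;>
      simp [nmul, mul_assoc, cr_mul, cl_mul, cl_cr]
  one_mul := by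
    intro a
    change nmul (Car.g 1) a = a
    cases a <;> simp [nmul]
  mul_one := by
    intro a
    change nmul a (Car.g 1) = a
    cases a <;> simp [nmul, cr_one]

instance : Monoid (ZMon H) where
  mul := zmul
  one := Car.g 1
  mul_assoc := by
    intro a b c
    change zmul (zmul a b) c = zmul a (zmul b c)
    cases a <;> cases b <;> cases c <;>
      simp [zmul, mul_assoc, cr_mul]
  one_mul := by
    intro a
    change zmul (Car.g 1) a = a
    cases a <;> simp [zmul]
  mul_one := by
    intro a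
    change zmul a (Car.g 1) = a
    cases a <;> simp [zmul, cr_one]

end Construction

section N

variable {G : Type} [Group G] {H : Subgroup G}

/-- elements of the first monoid -/
def Ng (a : G) : NMon H := Car.g a
/-- elements of the first monoid -/
def Ns (x : G) : NMon H := Car.s (mkc H x)
/-- elements of the first monoid -/
def Nt (p : PH H) : NMon H := Car.t p
/-- elements of the first monoid -/
def Nz : NMon H := Car.z

lemma Ng_one : (Ng 1 : NMon H) = 1 := rfl
lemma Ng_mul (a b : G) : (Ng a * Ng b : NMon H) = Ng (a * b) := rfl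
lemma Ng_Ns (a x : G) : (Ng a * Ns x : NMon H) = Ns x := rfl
lemma Ns_Ng (x a : G) : (Ns x * Ng a : NMon H) = Ns (x * a) := rfl
lemma Nt_Ns (p : PH H) (x : G) : (Nt p * Ns x : NMon H) = Ns ((p : G) * x) := rfl
lemma Ns_inj {x y : G} : (Ns x : NMon H) = Ns y ↔ y * x⁻¹ ∈ H := by
  rw [← mkc_eq]
  constructor
  · intro h; exact Car.s.inj h
  · intro h; exact congrArg Car.s h

end N

end Q281.SM
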