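import Mathlib
import Pool.Agent.Q281.SM.Defs
import Pool.Agent.Helper867.PF.FreeRes

/-!
# The lamplighter group over a free group
-/

namespace Q281.SM

open Finset
open scoped Pointwise symmDiff

/-- The lamplighter group: pairs of a finite subset of `F` and an element of `F`. -/
@[ext] structure Lamp (F : Type) where
  /-- the lamps -/
  w : Finset F
  /-- the lamplighter -/
  g : F

section

variable {F : Type} [Group F] [DecidableEq F]

instance : Mul (Lamp F) := ⟨fun a b => ⟨a.w ∆ (a.g • b.w), a.g * b.g⟩⟩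
instance : One (Lamp F) := ⟨⟨∅, 1⟩⟩
instance : Inv (Lamp F) := ⟨fun a => ⟨a.g⁻¹ • a.w, a.g⁻¹⟩⟩

@[simp] lemma mul_w (a b : Lamp F) : (a * b).w = a.w ∆ (a.g • b.w) := rfl
@[simp] lemma mul_g (a b : Lamp F) : (a * b).g = a.g * b.g := rfl
@[simp] lemma one_w : (1 : Lamp F).w = ∅ := rfl
@[simp] lemma one_g : (1 : Lamp F).g = 1 := rfl
@[simp] lemma inv_w (a : Lamp F) : (a⁻¹).w = a.g⁻¹ • a.w := rfl
@[simp] lemma inv_g (a : Lamp F) : (a⁻¹).g = a.g⁻¹ := rfl

instance : Group (Lamp F) where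
  mul_assoc a b c := by
    ext1
    · simp only [mul_w, mul_g]
      rw [smul_finset_symmDiff, mul_smul, symmDiff_assoc]
    · simp [mul_assoc]
  one_mul a := by
    ext1
    · simp only [mul_w, one_w, one_g, one_smul]
      exact bot_symmDiff _
    · simp
  mul_one a := by
    ext1
    · simp only [mul_w, one_w, smul_finset_empty]
      exact symmDiff_bot _
    · simp
  inv_mul_cancel a := by
    ext1
    · simp only [mul_w, inv_w, inv_g, one_w]
      exact symmDiff_self _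
    · simp

instance [Finite F] : Finite (Lamp F) := by
  have : Function.Injective (fun a : Lamp F => (a.w, a.g)) := by
    intro a b h
    simp only [Prod.mk.injEq] at h
    exact Lamp.ext h.1 h.2
  exact Finite.of_injective _ this

/-- the lamplighter -/
def wk : F →* Lamp F where
  toFun g := ⟨∅, g⟩
  map_one' := rfl
  map_mul' a b := by
    ext1
    · simp only [mul_w, smul_finset_empty]
      exact (symmDiff_bot _).symm
    · rfl

@[simp] lemma wk_w (g : F) : (wk g).w = ∅ := rfl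
@[simp] lemma wk_g (g : F) : (wk g).g = g := rfl

/-- the lamps in a given set -/
def HX (X : Set F) : Subgroup (Lamp F) where
  carrier := {a | a.g = 1 ∧ ∀ x ∈ a.w, x ∈ X}
  one_mem' := ⟨rfl, by simp⟩
  mul_mem' := by
    intro a b ha hb
    refine ⟨by rw [mul_g, ha.1, hb.1, one_mul], fun x hx => ?_⟩
    rw [mul_w, ha.1, one_smul, mem_symmDiff] at hx
    rcases hx with hx | hx
    · exact ha.2 x hx.1
    · exact hb.2 x hx.1
  inv_mem' := by
    intro a ha
    refine ⟨by rw [inv_g, ha.1, inv_one], fun x hx => ?_⟩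
    rw [inv_w, ha.1, inv_one, one_smul] at hx
    exact ha.2 x hx

lemma mem_HX {X : Set F} {a : Lamp F} : a ∈ HX X ↔ a.g = 1 ∧ ∀ x ∈ a.w, x ∈ X := Iff.rfl

lemma wk_conj_w (p : F) (a : Lamp F) (ha : a.g = 1) : (wk p * a * (wk p)⁻¹).w = p • a.w := by
  simp only [mul_w, wk_w, mul_g, wk_g, ha, mul_one, inv_w, smul_finset_empty]
  exact (symmDiff_bot _).trans (bot_symmDiff _)

lemma wk_conj_g (p : F) (a : Lamp F) (ha : a.g = 1) : (wk p * a * (wk p)⁻¹).g = 1 := by
  simp [ha]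

lemma wk_mem_PH {X : Set F} {p : F} (hp : ∀ x ∈ X, p * x ∈ X) : wk p ∈ PH (HX X) := by
  intro a ha
  refine ⟨wk_conj_g p a ha.1, fun x hx => ?_⟩
  rw [wk_conj_w p a ha.1, mem_smul_finset] at hx
  obtain ⟨y, hy, rfl⟩ := hx
  exact hp y (ha.2 y hy)

/-- one lamp -/
def lamp (x : F) : Lamp F := ⟨{x}, 1⟩

lemma lamp_mem {X : Set F} {x : F} (hx : x ∈ X) : lamp x ∈ HX X :=
  ⟨rfl, fun y hy => by rw [lamp, mem_singleton] at hy; rwa [hy]⟩

lemma lamp_not_mem {X : Set F} {p x y : F} (hxy : x ≠ y) (hx : p⁻¹ * x ∉ X) :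
    (wk p)⁻¹ * (lamp x * (lamp y)⁻¹) * wk p ∉ HX X := by
  intro h
  apply hx
  apply h.2
  have e : ((wk p)⁻¹ * (lamp x * (lamp y)⁻¹) * wk p) =
      wk p⁻¹ * (lamp x * (lamp y)⁻¹) * (wk p⁻¹)⁻¹ := by
    rw [map_inv, inv_inv]
  rw [e, wk_conj_w _ _ (by simp [lamp]), mem_smul_finset]
  refine ⟨x, ?_, rfl⟩
  rw [mul_w, mem_symmDiff]
  left
  refine ⟨by simp [lamp], ?_⟩
  simp [lamp, hxy]

lemma core_trivial {X : Set F} (hX : ∃ q, q ∉ X) {a : Lamp F}
    (h : ∀ x : Lamp F, x * a * x⁻¹ ∈ HX X) : a = 1 := by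
  have h1 : a.g = 1 := by
    have := (h 1).1
    simpa using this
  obtain ⟨q, hq⟩ := hX
  ext1
  · rw [one_w]
    by_contra hne
    obtain ⟨u, hu⟩ := Finset.nonempty_iff_ne_empty.2 hne
    apply hq
    apply (h (wk (q * u⁻¹))).2
    rw [wk_conj_w _ _ h1, mem_smul_finset]
    exact ⟨u, hu, by simp⟩
  · rw [h1, one_g]

end

section Local

/-- finite sets of elements of a free group are separated by finite quotients -/
lemma exists_injOn {α : Type} (S : Finset (FreeGroup α)) :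
    ∃ (Q : Type) (_ : Group Q) (_ : Finite Q) (f : FreeGroup α →* Q), Set.InjOn f S := by
  classical
  have hres := fun w : FreeGroup α => fun hw : w ≠ 1 => Pool.Agent.Helper867.PF.free_res w hw
  choose Q iG iF f hf using hres
  let T : Finset (FreeGroup α) := ((S ×ˢ S).image (fun xy => xy.1⁻¹ * xy.2)).filter (· ≠ 1)
  have hT : ∀ t : T, (t : FreeGroup α) ≠ 1 := fun t => (mem_filter.1 t.2).2
  let P : Type := ∀ t : T, Q t (hT t)
  let gP : ∀ t : T, Group (Q t (hT t)) := fun t => iG t (hT t)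
  have fP : ∀ t : T, Finite (Q t (hT t)) := fun t => iF t (hT t)
  refine ⟨P, Pi.group, Pi.finite, MonoidHom.pi (fun t : T => f t (hT t)), ?_⟩
  intro x hx y hy hxy
  by_contra hne
  have hne' : x⁻¹ * y ≠ 1 := fun h => hne (by
    have := inv_mul_eq_one.1 h; exact this)
  have hmem : x⁻¹ * y ∈ T := mem_filter.2 ⟨mem_image.2 ⟨(x, y), mem_product.2 ⟨hx, hy⟩, rfl⟩, hne'⟩
  have h1 := congrFun hxy ⟨x⁻¹ * y, hmem⟩
  apply (hf (x⁻¹ * y) hne').2
  rw [map_mul, map_inv]
  exact inv_mul_eq_one.2 h1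

variable {F Q : Type} [Group F] [DecidableEq F] [Group Q] [DecidableEq Q]

/-- the induced map -/
def lmap (f : F →* Q) (a : Lamp F) : Lamp Q := ⟨a.w.image f, f a.g⟩

lemma image_symmDiff_of_injOn {f : F → Q} {S : Finset F} (hf : Set.InjOn f S) {a b : Finset F}
    (ha : a ⊆ S) (hb : b ⊆ S) : (a ∆ b).image f = a.image f ∆ b.image f := by
  ext y
  simp only [mem_image, mem_symmDiff]
  constructor
  · rintro ⟨x, hx | hx, rfl⟩
    · left
      refine ⟨⟨x, hx.1, rfl⟩, ?_⟩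
      rintro ⟨x', hx', h⟩
      have := hf (hb hx') (ha hx.1) h
      exact hx.2 (this ▸ hx')
    · right
      refine ⟨⟨x, hx.1, rfl⟩, ?_⟩
      rintro ⟨x', hx', h⟩
      have := hf (ha hx') (hb hx.1) h
      exact hx.2 (this ▸ hx')
  · rintro (⟨⟨x, hx, rfl⟩, h⟩ | ⟨⟨x, hx, rfl⟩, h⟩)
    · exact ⟨x, Or.inl ⟨hx, fun h' => h ⟨x, h', rfl⟩⟩, rfl⟩
    · exact ⟨x, Or.inr ⟨hx, fun h' => h ⟨x, h', rfl⟩⟩, rfl⟩

/-- local embeddings in finite groups that respect a subgroup -/
def LocSep {G : Type} [Group G] (H : Subgroup G) : Prop :=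
  ∀ S : Finset G, ∃ (Q : Type) (_ : Group Q) (_ : Finite Q) (π : G → Q) (H' : Subgroup Q),
    π 1 = 1 ∧ (∀ a ∈ S, ∀ b ∈ S, π (a * b) = π a * π b) ∧ Set.InjOn π S ∧
      ∀ a ∈ S, (a ∈ H ↔ π a ∈ H')

theorem locSep {α : Type} [DecidableEq (FreeGroup α)] (X : Set (FreeGroup α)) :
    LocSep (HX X) := by
  classical
  intro S
  set T : Finset (FreeGroup α) := insert 1 (((S.biUnion (fun a => a.w)) ∪ S.image (fun a => a.g)) ∪
    (S ×ˢ S).biUnion (fun ab => ab.1.g • ab.2.w)) with hT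
  obtain ⟨Q, iG, iF, f, hf⟩ := exists_injOn T
  have hw : ∀ a ∈ S, a.w ⊆ T := by
    intro a ha x hx
    rw [hT, mem_insert, mem_union, mem_union, mem_biUnion]
    exact Or.inr (Or.inl (Or.inl ⟨a, ha, hx⟩))
  have hg : ∀ a ∈ S, a.g ∈ T := by
    intro a ha
    rw [hT, mem_insert, mem_union, mem_union]
    exact Or.inr (Or.inl (Or.inr (mem_image_of_mem _ ha)))
  have hgw : ∀ a ∈ S, ∀ b ∈ S, a.g • b.w ⊆ T := by
    intro a ha b hb x hx
    rw [hT, mem_insert, mem_union, mem_biUnion]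
    exact Or.inr (Or.inr ⟨(a, b), mem_product.2 ⟨ha, hb⟩, hx⟩)
  have h1 : (1 : FreeGroup α) ∈ T := mem_insert_self _ _
  refine ⟨Lamp Q, inferInstance, inferInstance, lmap f, HX (f '' (X ∩ T)), ?_, ?_, ?_, ?_⟩
  · ext1
    · simp [lmap]
    · simp [lmap]
  · intro a ha b hb
    ext1
    · simp only [lmap, mul_w]
      rw [image_symmDiff_of_injOn hf (hw a ha) (hgw a ha b hb)]
      congr 1
      ext y
      simp only [mem_image, mem_smul_finset, smul_eq_mul]
      constructor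
      · rintro ⟨_, ⟨x, hx, rfl⟩, rfl⟩
        exact ⟨f x, ⟨x, hx, rfl⟩, by rw [map_mul]⟩
      · rintro ⟨_, ⟨x, hx, rfl⟩, rfl⟩
        exact ⟨a.g * x, ⟨x, hx, rfl⟩, by rw [map_mul]⟩
    · simp [lmap]
  · intro a ha b hb hab
    have e1 : a.w.image f = b.w.image f := congrArg Lamp.w hab
    have e2 : f a.g = f b.g := congrArg Lamp.g hab
    ext1
    · ext x
      constructor
      · intro hx
        have : f x ∈ b.w.image f := e1 ▸ mem_image_of_mem f hx
        obtain ⟨y, hy, hyx⟩ := mem_image.1 this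
        rw [← hf (hw b hb hy) (hw a ha hx) hyx]
        exact hy
      · intro hx
        have : f x ∈ a.w.image f := e1 ▸ mem_image_of_mem f hx
        obtain ⟨y, hy, hyx⟩ := mem_image.1 this
        rw [← hf (hw a ha hy) (hw b hb hx) hyx]
        exact hy
    · exact hf (hg a ha) (hg b hb) e2
  · intro a ha
    rw [mem_HX, mem_HX]
    constructor
    · rintro ⟨h2, h3⟩
      refine ⟨by simp [lmap, h2], fun y hy => ?_⟩
      simp only [lmap, mem_image] at hy
      obtain ⟨x, hx, rfl⟩ := hy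
      exact ⟨x, ⟨h3 x hx, hw a ha hx⟩, rfl⟩
    · rintro ⟨h2, h3⟩
      refine ⟨hf (hg a ha) h1 (by simpa [lmap] using h2), fun x hx => ?_⟩
      have : f x ∈ (lmap f a).w := mem_image_of_mem f hx
      obtain ⟨y, hy, hyx⟩ := h3 _ this
      rw [← hf hy.2 (hw a ha hx) hyx]
      exact hy.1

lemma card_all {X : Type*} {P : X → Prop} {ε : ℝ} (hε : 0 < ε) (h : ∀ x, P x) :
    (1 - ε) * Nat.card X ≤ Nat.card {x : X // P x} := by
  rw [Nat.card_congr (Equiv.subtypeUnivEquiv h)]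
  nlinarith [(Nat.cast_nonneg (Nat.card X) : (0 : ℝ) ≤ _)]

theorem isSofic_of_locSep {G : Type} [Group G] {H : Subgroup G} (h : LocSep H) : IsSofic G := by
  classical
  intro K ε hε
  obtain ⟨Q, iG, iF, π, H', h1, h2, h3, -⟩ := h K
  refine ⟨Q, iF, ⟨1⟩, fun a x => π a * x, ⟨fun x => by rw [h1, one_mul], fun s hs t ht => ?_,
    fun s hs t ht hst => ?_⟩⟩
  · exact card_all hε (fun x => by rw [h2 s hs t ht, mul_assoc])
  · exact card_all hε (fun x hx => hst (h3 hs ht (mul_right_cancel hx)))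

end Local

end Q281.SM
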