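import Mathlib
import Pool.Agent.Q281.SM.NonSofic
import Pool.Agent.Q281.SM.Lamp

/-!
# The example
-/

namespace Q281.SM

open Finset

/-- the 3-cycles -/
def fc : Bool × ℕ → Bool × ℕ
  | (false, n) => (true, 3 * n)
  | (true, k) => if k % 3 = 0 then (true, k + 1) else if k % 3 = 1 then (false, k / 3) else (true, k)

lemma fc3 (x : Bool × ℕ) : fc (fc (fc x)) = x := by
  rcases x with ⟨_ | _, n⟩
  · have h1 : (3 * n) % 3 = 0 := by omega
    have h2 : (3 * n + 1) % 3 = 1 := by omega
    have h2' : ¬ (3 * n + 1) % 3 = 0 := by omega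
    have h3 : (3 * n + 1) / 3 = n := by omega
    simp [fc, h2, h3]
  · by_cases h0 : n % 3 = 0
    · have h2 : (n + 1) % 3 = 1 := by omega
      have h2' : ¬ (n + 1) % 3 = 0 := by omega
      have h3 : 3 * ((n + 1) / 3) = n := by omega
      simp [fc, h0, h2, h3]
    · by_cases h1 : n % 3 = 1
      · have h3 : 3 * (n / 3) + 1 = n := by omega
        simp [fc, h1, h3]
      · simp [fc, h0, h1]

/-- the permutation `c` -/
def pc : Equiv.Perm (Bool × ℕ) := ⟨fc, fun x => fc (fc x), fc3, fc3⟩

/-- the pairing -/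
def fd : Bool × ℕ → Bool × ℕ
  | (true, n) => (false, 2 * n)
  | (false, k) => if k % 2 = 0 then (true, k / 2) else (false, k)

lemma fd2 (x : Bool × ℕ) : fd (fd x) = x := by
  rcases x with ⟨_ | _, n⟩
  · by_cases h0 : n % 2 = 0
    · have h3 : 2 * (n / 2) = n := by omega
      simp [fd, h0, h3]
    · simp [fd, h0]
  · simp [fd]

/-- the permutation `d` -/
def pd : Equiv.Perm (Bool × ℕ) := ⟨fd, fd, fd2, fd2⟩

/-- the permutation `h` -/
def ph : Equiv.Perm (Bool × ℕ) := ⟨fun x => (!x.1, x.2), fun x => (!x.1, x.2), fun x => by simp,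
  fun x => by simp⟩

/-- the free group of rank three -/
abbrev F3 : Type := FreeGroup (Fin 3)

/-- its action -/
def act : F3 →* Equiv.Perm (Bool × ℕ) := FreeGroup.lift ![pc, pd, ph]

/-- the generators -/
def gc : F3 := FreeGroup.of 0
/-- the generators -/
def gd : F3 := FreeGroup.of 1
/-- the generators -/
def gh : F3 := FreeGroup.of 2

lemma act_c : act gc = pc := by simp [act, gc]
lemma act_d : act gd = pd := by simp [act, gd]
lemma act_h : act gh = ph := by simp [act, gh]

/-- the subset of the free group -/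
def X0 : Set F3 := {x | (act x (true, 5)).1 = true}

/-- the permutations of the six elements map the first half of `Bool × ℕ` into itself -/
lemma six_pos (k : Fin 6) (n : ℕ) : (act (six gc gd gh k) (true, n)).1 = true := by
  fin_cases k
  · change (act (gc * gh⁻¹) (true, n)).1 = true
    rw [map_mul, map_inv, act_c, act_h]; rfl
  · change (act (gc⁻¹ * gh⁻¹) (true, n)).1 = true
    rw [map_mul, map_inv, map_inv, act_c, act_h]
    change (fc (fc (false, n))).1 = true
    simp [fc]
  · change (act (gc * gc * gh⁻¹) (true, n)).1 = true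
    rw [map_mul, map_mul, map_inv, act_c, act_h]
    change (fc (fc (false, n))).1 = true
    simp [fc]
  · change (act ((gc * gc)⁻¹ * gh⁻¹) (true, n)).1 = true
    rw [map_mul, map_inv, map_mul, map_inv, act_c, act_h, mul_inv_rev]
    change (fc (fc (fc (fc (false, n))))).1 = true
    rw [fc3]; rfl
  · change (act (gh * gd⁻¹) (true, n)).1 = true
    rw [map_mul, map_inv, act_d, act_h]; rfl
  · change (act (gh * gd) (true, n)).1 = true
    rw [map_mul, act_d, act_h]; rfl

lemma six_neg (k : Fin 6) : ((act (six gc gd gh k))⁻¹ (true, 5)).1 = false := by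
  fin_cases k
  · change ((act (gc * gh⁻¹))⁻¹ (true, 5)).1 = false
    rw [map_mul, map_inv, act_c, act_h, mul_inv_rev, inv_inv]
    change (ph (fc (fc (true, 5)))).1 = false
    simp [fc, ph]
  · change ((act (gc⁻¹ * gh⁻¹))⁻¹ (true, 5)).1 = false
    rw [map_mul, map_inv, map_inv, act_c, act_h, mul_inv_rev, inv_inv, inv_inv]
    change (ph (fc (true, 5))).1 = false
    simp [fc, ph]
  · change ((act (gc * gc * gh⁻¹))⁻¹ (true, 5)).1 = false
    rw [map_mul, map_mul, map_inv, act_c, act_h, mul_inv_rev, mul_inv_rev, inv_inv]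
    change (ph (fc (fc (fc (fc (true, 5)))))).1 = false
    simp [fc, ph]
  · change ((act ((gc * gc)⁻¹ * gh⁻¹))⁻¹ (true, 5)).1 = false
    rw [map_mul, map_inv, map_mul, map_inv, act_c, act_h, mul_inv_rev, inv_inv, inv_inv]
    change (ph (fc (fc (true, 5)))).1 = false
    simp [fc, ph]
  · change ((act (gh * gd⁻¹))⁻¹ (true, 5)).1 = false
    rw [map_mul, map_inv, act_d, act_h, mul_inv_rev, inv_inv]
    change (fd (false, 5)).1 = false
    simp [fd]
  · change ((act (gh * gd))⁻¹ (true, 5)).1 = false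
    rw [map_mul, act_d, act_h, mul_inv_rev]
    change (fd (false, 5)).1 = false
    simp [fd]

lemma six_X0 (k : Fin 6) : ∀ x ∈ X0, six gc gd gh k * x ∈ X0 := by
  intro x hx
  simp only [X0, Set.mem_ofPred_eq] at hx ⊢
  rw [map_mul, Equiv.Perm.mul_apply]
  have e : act x (true, 5) = (true, (act x (true, 5)).2) := Prod.ext hx rfl
  rw [e]
  exact six_pos k _

lemma gc_pow_act (i : ℕ) : act (gc ^ i) (true, 5) = (true, 5) := by
  induction i with
  | zero => simp
  | succ i ih =>
    rw [pow_succ, map_mul, Equiv.Perm.mul_apply, act_c]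
    have : pc (true, 5) = (true, 5) := by
      change fc (true, 5) = (true, 5)
      simp [fc]
    rw [this, ih]

lemma gc_pow_mem (i : ℕ) : gc ^ i ∈ X0 := by
  change (act (gc ^ i) (true, 5)).1 = true
  rw [gc_pow_act]

lemma gc_pow_ne {i j : ℕ} (h : i ≠ j) : gc ^ i ≠ gc ^ j := by
  intro he
  have h1 := congrArg (fun x => (FreeGroup.toWord x).length) he
  simp only [gc, FreeGroup.toWord_of_pow, List.length_replicate] at h1
  exact h h1

lemma six_not_mem (k : Fin 6) (i : ℕ) : (six gc gd gh k)⁻¹ * gc ^ i ∉ X0 := by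
  intro h
  have h1 : (act ((six gc gd gh k)⁻¹ * gc ^ i) (true, 5)).1 = true := h
  rw [map_mul, Equiv.Perm.mul_apply, gc_pow_act, map_inv, six_neg] at h1
  exact absurd h1 (by decide)

lemma exists_not_mem : ∃ q, q ∉ X0 := ⟨_, six_not_mem 0 0⟩

/-- the group -/
abbrev G0 : Type := Lamp F3

/-- the subgroup -/
abbrev H0 : Subgroup G0 := HX X0

lemma wk_six (k : Fin 6) : six (wk gc) (wk gd) (wk gh) k = wk (six gc gd gh k) := by
  fin_cases k <;> simp [six, map_mul, map_inv]

theorem not_sofic_NMon : ¬ IsSofic (NMon H0) := by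
  refine not_sofic (wk gc) (wk gd) (wk gh) (fun i => lamp (gc ^ i)) ?_ ?_ ?_
  · intro i; exact lamp_mem (gc_pow_mem i)
  · intro k
    rw [wk_six]
    exact wk_mem_PH (six_X0 k)
  · intro k i j hij
    rw [wk_six]
    exact lamp_not_mem (gc_pow_ne hij) (six_not_mem k i)

end Q281.SM
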