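import Mathlib
import Pool.Agent.Q281.SM.Lamp

/-!
# Units, the `J`-class of the identity and orbit stabilisers
-/

namespace Q281.SM

section

variable {G : Type} [Group G] (H : Subgroup G)

/-- the group element -/
def gval {H : Subgroup G} : Car H → G
  | .g a => a
  | .s _ => 1
  | .t _ => 1
  | .z => 1

/-- the units of the first monoid -/
def nUnits : G ≃* (NMon H)ˣ where
  toFun a := ⟨Car.g a, Car.g a⁻¹, by
    change nmul (Car.g a) (Car.g a⁻¹) = Car.g 1
    simp [nmul], by
    change nmul (Car.g a⁻¹) (Car.g a) = Car.g 1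
    simp [nmul]⟩
  invFun u := gval (u : NMon H)
  left_inv a := rfl
  right_inv u := by
    apply Units.ext
    have h : nmul (u : NMon H) ((u⁻¹ : (NMon H)ˣ) : NMon H) = Car.g 1 := u.mul_inv
    change (Car.g (gval (u : NMon H)) : Car H) = (u : NMon H)
    generalize (u : NMon H) = x at h ⊢
    generalize ((u⁻¹ : (NMon H)ˣ) : NMon H) = y at h
    cases x <;> cases y <;> first | rfl | (exfalso; simp [nmul] at h)
  map_mul' a b := by
    apply Units.ext
    rfl

/-- the units of the second monoid -/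
def zUnits : G ≃* (ZMon H)ˣ where
  toFun a := ⟨Car.g a, Car.g a⁻¹, by
    change zmul (Car.g a) (Car.g a⁻¹) = Car.g 1
    simp [zmul], by
    change zmul (Car.g a⁻¹) (Car.g a) = Car.g 1
    simp [zmul]⟩
  invFun u := gval (u : ZMon H)
  left_inv a := rfl
  right_inv u := by
    apply Units.ext
    have h : zmul (u : ZMon H) ((u⁻¹ : (ZMon H)ˣ) : ZMon H) = Car.g 1 := u.mul_inv
    change (Car.g (gval (u : ZMon H)) : Car H) = (u : ZMon H)
    generalize (u : ZMon H) = x at h ⊢
    generalize ((u⁻¹ : (ZMon H)ˣ) : ZMon H) = y at h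
    cases x <;> cases y <;> first | rfl | (exfalso; simp [zmul] at h)
  map_mul' a b := by
    apply Units.ext
    rfl

variable {H}

lemma nIsUnit {m : NMon H} : IsUnit m ↔ ∃ a : G, m = Car.g a := by
  constructor
  · rintro ⟨u, rfl⟩
    exact ⟨(nUnits H).symm u, congrArg Units.val ((nUnits H).apply_symm_apply u).symm⟩
  · rintro ⟨a, rfl⟩
    exact ⟨nUnits H a, rfl⟩

lemma zIsUnit {m : ZMon H} : IsUnit m ↔ ∃ a : G, m = Car.g a := by
  constructor
  · rintro ⟨u, rfl⟩
    exact ⟨(zUnits H).symm u, congrArg Units.val ((zUnits H).apply_symm_apply u).symm⟩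
  · rintro ⟨a, rfl⟩
    exact ⟨zUnits H a, rfl⟩

lemma isUnit_mem_JOne {M : Type*} [Monoid M] {m : M} (h : IsUnit m) : m ∈ JOne M := by
  obtain ⟨u, rfl⟩ := h
  intro x
  exact ⟨x * (u⁻¹ : Mˣ), 1, by simp⟩

lemma nJOne : JOne (NMon H) = {m | IsUnit m} := by
  ext m
  constructor
  · intro h
    obtain ⟨a, b, hab⟩ := h 1
    refine nIsUnit.2 ?_
    have h1 : nmul (nmul a m) b = Car.g 1 := hab
    cases a <;> cases m <;> cases b <;> first | exact ⟨_, rfl⟩ | (exfalso; simp [nmul] at h1)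
  · exact isUnit_mem_JOne

lemma zJOne : JOne (ZMon H) = {m | IsUnit m} := by
  ext m
  constructor
  · intro h
    obtain ⟨a, b, hab⟩ := h 1
    refine zIsUnit.2 ?_
    have h1 : zmul (zmul a m) b = Car.g 1 := hab
    cases a <;> cases m <;> cases b <;> first | exact ⟨_, rfl⟩ | (exfalso; simp [zmul] at h1)
  · exact isUnit_mem_JOne

lemma isSofic_quot_bot {M : Type*} [Group M] {N : Subgroup M} [N.Normal] (hN : N = ⊥)
    (hM : IsSofic M) : IsSofic (M ⧸ N) := by
  subst hN
  exact hM.of_mulEquiv QuotientGroup.quotientBot.symm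

lemma isSofic_quot_top {M : Type*} [Group M] {N : Subgroup M} [N.Normal] (hN : N = ⊤) :
    IsSofic (M ⧸ N) := by
  subst hN
  have := QuotientGroup.subsingleton_quotient_top (G := M)
  exact isSofic_of_subsingleton _

end

section Orbits

variable {F : Type} [Group F] [DecidableEq F] {X : Set F}

lemma orbStab_g (a : Lamp F) : orbStab (M := NMon (HX X)) (Car.g a) = ⊥ := by
  rw [eq_bot_iff]
  intro g hg
  have h1 := hg 1
  rw [Subgroup.mem_bot]
  obtain ⟨b, rfl⟩ := (nUnits (HX X)).surjective g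
  have h2 : (Car.g (a * 1 * b) : NMon (HX X)) = Car.g (a * 1) := h1
  have h3 := Car.g.inj h2
  have h4 : b = 1 := by simpa using h3
  rw [h4, map_one]

lemma orbStab_s (hX : ∃ q, q ∉ X) (c : Cos (HX X)) :
    orbStab (M := NMon (HX X)) (Car.s c) = ⊥ := by
  rw [eq_bot_iff]
  intro g hg
  rw [Subgroup.mem_bot]
  obtain ⟨b, rfl⟩ := (nUnits (HX X)).surjective g
  obtain ⟨y, rfl⟩ := mkc_surj c
  have h4 : b = 1 := by
    refine core_trivial (X := X) hX fun x => ?_
    have h1 := hg (nUnits (HX X) (y⁻¹ * x))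
    have h2 : (Car.s (mkc (HX X) (y * (y⁻¹ * x) * b)) : NMon (HX X)) =
      Car.s (mkc (HX X) (y * (y⁻¹ * x))) := h1
    have h3 := mkc_eq.1 (Car.s.inj h2).symm
    simpa [mul_assoc] using h3
  rw [h4, map_one]

lemma orbStab_t (p : PH (HX X)) : orbStab (M := NMon (HX X)) (Car.t p) = ⊤ := by
  rw [eq_top_iff]
  intro g _ u
  obtain ⟨b, rfl⟩ := (nUnits (HX X)).surjective g
  obtain ⟨y, rfl⟩ := (nUnits (HX X)).surjective u
  rfl

lemma orbStab_z : orbStab (M := NMon (HX X)) Car.z = ⊤ := by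
  rw [eq_top_iff]
  intro g _ u
  obtain ⟨b, rfl⟩ := (nUnits (HX X)).surjective g
  obtain ⟨y, rfl⟩ := (nUnits (HX X)).surjective u
  rfl

theorem isSofic_quot (hX : ∃ q, q ∉ X) (hM : IsSofic (NMon (HX X))ˣ) (m : NMon (HX X)) :
    IsSofic ((NMon (HX X))ˣ ⧸ orbStab m) := by
  cases m with
  | g a => exact isSofic_quot_bot (orbStab_g a) hM
  | s c => exact isSofic_quot_bot (orbStab_s hX c) hM
  | t p => exact isSofic_quot_top (orbStab_t p)
  | z => exact isSofic_quot_top orbStab_z

end Orbits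

end Q281.SM
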