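import Mathlib
import Pool.Agent.Q281.SM.Lamp

/-!
# The second monoid is sofic
-/

namespace Q281.SM

open Finset

section

variable {G : Type} [Group G] {H : Subgroup G}

/-- the finite set -/
abbrev ZX {Q : Type} [Group Q] (H' : Subgroup Q) (K : Finset (ZMon H)) (N : ℕ) : Type :=
  (Q × Fin N) ⊕ Option (Cos H' ⊕ {x // x ∈ K})

open Classical in
/-- the action -/
noncomputable def fz {Q : Type} [Group Q] (π : G → Q) (H' : Subgroup Q) (K : Finset (ZMon H))
    (N : ℕ) : Car H → ZX H' K N → ZX H' K N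
  | .g a, .inl (y, i) => .inl (π a * y, i)
  | .g _, .inr r => .inr r
  | .s c, .inl (y, _) => .inr (some (.inl (mkc H' (π c.out * y))))
  | .t p, .inl _ => .inr (if h : (Car.t p : ZMon H) ∈ K then some (.inr ⟨_, h⟩) else none)
  | .z, .inl _ => .inr none
  | .s _, .inr _ => .inr none
  | .t _, .inr _ => .inr none
  | .z, .inr _ => .inr none

open Classical in
lemma fz_t {Q : Type} [Group Q] {π : G → Q} {H' : Subgroup Q} {K : Finset (ZMon H)}
    {N : ℕ} {p : PH H} (hp : (Car.t p : ZMon H) ∈ K) {y : Q} {i : Fin N} :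
    fz π H' K N (Car.t p) (.inl (y, i)) = .inr (some (.inr ⟨Car.t p, hp⟩)) := by
  change (Sum.inr (if h : (Car.t p : ZMon H) ∈ K then some (.inr ⟨_, h⟩) else none) :
    ZX H' K N) = _
  rw [dif_pos hp]

/-- the group element -/
def ga : Car H → G
  | .g a => a
  | _ => 1

/-- the representative -/
noncomputable def sc : Car H → G
  | .s c => c.out
  | _ => 1

open Classical in
/-- the set of group elements -/
noncomputable def SK (K : Finset (ZMon H)) : Finset G :=
  (K ×ˢ K).biUnion (fun m => {ga m.1, sc m.1, sc m.1 * ga m.2,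
    sc (zmul m.1 m.2) * (sc m.1 * ga m.2)⁻¹, sc m.2 * (sc m.1)⁻¹})

lemma mem_SK {K : Finset (ZMon H)} {m n : Car H} (hm : m ∈ K) (hn : n ∈ K) :
    ga m ∈ SK K ∧ sc m ∈ SK K ∧ sc m * ga n ∈ SK K ∧
      sc (zmul m n) * (sc m * ga n)⁻¹ ∈ SK K ∧ sc n * (sc m)⁻¹ ∈ SK K := by
  classical
  have h : ∀ x ∈ ({ga m, sc m, sc m * ga n,
    sc (zmul m n) * (sc m * ga n)⁻¹, sc n * (sc m)⁻¹} : Finset G), x ∈ SK K := by
    intro x hx
    exact mem_biUnion.2 ⟨(m, n), mem_product.2 ⟨hm, hn⟩, hx⟩
  refine ⟨h _ (by simp), h _ (by simp), h _ (by simp), h _ (by simp), h _ (by simp)⟩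

lemma out_eq (c : Cos H) : mkc H c.out = c := Quotient.out_eq c

theorem isSofic_ZMon (hH : LocSep H) : IsSofic (ZMon H) := by
  classical
  intro K ε hε
  obtain ⟨Q, iG, iF, π, H', h1, h2, h3, h4⟩ := hH (SK K)
  obtain ⟨N, hN⟩ := exists_nat_gt ((Nat.card (Option (Cos H' ⊕ {x // x ∈ K})) : ℝ) / ε)
  have hN0 : 0 < N := by
    have : (0 : ℝ) < N := lt_of_le_of_lt (by positivity) hN
    exact_mod_cast this
  have iN : Nonempty (Fin N) := ⟨⟨0, hN0⟩⟩
  refine ⟨ZX H' K N, inferInstance, ⟨.inr none⟩, fz π H' K N, ⟨fun x => ?_, fun s hs t ht => ?_,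
    fun s hs t ht hst => ?_⟩⟩
  · change fz π H' K N (Car.g 1) x = x
    rcases x with ⟨y, i⟩ | r
    · simp [fz, h1]
    · simp [fz]
  · refine card_all hε fun x => ?_
    change fz π H' K N s (fz π H' K N t x) = fz π H' K N (zmul s t) x
    obtain ⟨m1, m2, m3, m4, -⟩ := mem_SK hs ht
    obtain ⟨n1, n2, -, -, -⟩ := mem_SK ht hs
    rcases s with a | c | p | _ <;> rcases t with b | c' | p' | _ <;>
      rcases x with ⟨y, i⟩ | r <;> try rfl
    · change (Sum.inl (π a * (π b * y), i) : ZX H' K N) = Sum.inl (π (a * b) * y, i)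
      rw [h2 a m1 b n1, mul_assoc]
    · change (Sum.inr (some (Sum.inl (mkc H' (π c.out * (π b * y))))) : ZX H' K N) =
        Sum.inr (some (Sum.inl (mkc H' (π (cr H c b).out * y))))
      congr 3
      rw [mkc_eq]
      have e1 : (cr H c b).out * (c.out * b)⁻¹ ∈ H := by
        rw [← mkc_eq, out_eq, ← cr_mkc, out_eq]
      have e2 : π ((cr H c b).out * (c.out * b)⁻¹) ∈ H' := (h4 _ m4).1 e1
      have e3 : π ((cr H c b).out) = π ((cr H c b).out * (c.out * b)⁻¹) * π (c.out * b) := by
        have e0 : π ((cr H c b).out * (c.out * b)⁻¹ * (c.out * b)) =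
          π ((cr H c b).out * (c.out * b)⁻¹) * π (c.out * b) := h2 _ m4 _ m3
        rw [← e0, inv_mul_cancel_right]
      have e4 : π (c.out * b) = π c.out * π b := h2 _ m2 _ n1
      rw [e3, e4]
      simpa [mul_assoc] using e2
  · have key : ∀ y i, fz π H' K N s (Sum.inl (y, i)) ≠ fz π H' K N t (Sum.inl (y, i)) := by
      intro y i heq
      obtain ⟨m1, m2, m3, m4, m5⟩ := mem_SK hs ht
      obtain ⟨n1, n2, -, -, -⟩ := mem_SK ht hs
      rcases s with a | c | p | _ <;> rcases t with b | c' | p' | _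
      · have e1 : (Sum.inl (π a * y, i) : ZX H' K N) = Sum.inl (π b * y, i) := heq
        have e2 := congrArg Prod.fst (Sum.inl.inj e1)
        have e3 : π a = π b := mul_right_cancel e2
        exact hst (congrArg Car.g (h3 m1 n1 e3))
      · exact Sum.inl_ne_inr heq
      · exact Sum.inl_ne_inr heq
      · exact Sum.inl_ne_inr heq
      · exact Sum.inr_ne_inl heq
      · have e1 : (Sum.inr (some (Sum.inl (mkc H' (π c.out * y)))) : ZX H' K N) =
          Sum.inr (some (Sum.inl (mkc H' (π c'.out * y)))) := heq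
        have e2 := Sum.inl.inj (Option.some.inj (Sum.inr.inj e1))
        rw [mkc_eq] at e2
        have e3 : π c'.out = π (c'.out * c.out⁻¹) * π c.out := by
          have e0 : π (c'.out * c.out⁻¹ * c.out) =
            π (c'.out * c.out⁻¹) * π c.out := h2 _ m5 _ m2
          rw [← e0, inv_mul_cancel_right]
        rw [e3] at e2
        have e4 : π (c'.out * c.out⁻¹) ∈ H' := by simpa [mul_assoc] using e2
        have e5 : c'.out * c.out⁻¹ ∈ H := (h4 _ m5).2 e4
        rw [← mkc_eq, out_eq, out_eq] at e5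
        exact hst (congrArg Car.s e5)
      · rw [fz_t ht] at heq
        exact Sum.inl_ne_inr (Option.some.inj (Sum.inr.inj heq))
      · have e1 := Sum.inr.inj heq
        exact Option.some_ne_none _ e1
      · exact Sum.inr_ne_inl heq
      · rw [fz_t hs] at heq
        exact Sum.inr_ne_inl (Option.some.inj (Sum.inr.inj heq))
      · rw [fz_t hs, fz_t ht] at heq
        exact hst (congrArg Subtype.val (Sum.inr.inj (Option.some.inj (Sum.inr.inj heq))))
      · rw [fz_t hs] at heq
        exact Option.some_ne_none _ (Sum.inr.inj heq)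
      · exact Sum.inr_ne_inl heq
      · have e1 := Sum.inr.inj heq
        exact Option.some_ne_none _ e1.symm
      · rw [fz_t ht] at heq
        exact Option.some_ne_none _ (Sum.inr.inj heq).symm
      · exact hst rfl
    have c1 : Nat.card (Q × Fin N) ≤
        Nat.card {x : ZX H' K N // fz π H' K N s x ≠ fz π H' K N t x} := by
      refine Nat.card_le_card_of_injective (fun z => ⟨Sum.inl z, key z.1 z.2⟩) ?_
      intro z z' h
      exact Sum.inl.inj (congrArg Subtype.val h)
    have c2 : Nat.card (ZX H' K N) =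
        Nat.card (Q × Fin N) + Nat.card (Option (Cos H' ⊕ {x // x ∈ K})) := Nat.card_sum
    have c3 : N ≤ Nat.card (Q × Fin N) := by
      rw [Nat.card_prod, Nat.card_fin]
      exact Nat.le_mul_of_pos_left _ Nat.card_pos
    have c4 : (Nat.card (Option (Cos H' ⊕ {x // x ∈ K})) : ℝ) ≤ ε * N := by
      rw [div_lt_iff₀ hε] at hN
      linarith
    have c5 : ((Nat.card (Q × Fin N) : ℕ) : ℝ) ≤
        Nat.card {x : ZX H' K N // fz π H' K N s x ≠ fz π H' K N t x} := by exact_mod_cast c1
    have c6 : (N : ℝ) ≤ Nat.card (Q × Fin N) := by exact_mod_cast c3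
    rw [c2]
    push_cast
    have c7 : ε * N ≤ ε * Nat.card (Q × Fin N) := mul_le_mul_of_nonneg_left c6 hε.le
    have c8 : 0 ≤ ε * (Nat.card (Option (Cos H' ⊕ {x // x ∈ K})) : ℝ) := by positivity
    nlinarith

end

end Q281.SM
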